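import Mathlib

/-!
Every finite simple digraph has an arc-binding set-indexer attaining the extremal arc bound.
-/

namespace Pool.Agent.Results.MP_95765a_co.AllDigraphs

/-- `f` is a set-indexer of `D`: both `f` and the arc function `(u, v) ↦ f u \ f v` are injective -/
def IsSetIndexer {V X : Type} [DecidableEq X] (D : Digraph V) (f : V → Finset X) : Prop :=
  Function.Injective f ∧
    ∀ u v u' v', D.Adj u v → D.Adj u' v' → f u \ f v = f u' \ f v' → u = u' ∧ v = v'

/-- the set-indexer `f` is arc-binding: `|f u \ f v| < |f v|` on every arc -/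
def IsArcBinding {V X : Type} [DecidableEq X] (D : Digraph V) (f : V → Finset X) : Prop :=
  IsSetIndexer D f ∧ ∀ u v, D.Adj u v → (f u \ f v).card < (f v).card

/-- `D` has an arc-binding set-indexer over some finite nonempty ground set for which
`|f u \ f v| = min (|f u|, |f v| - 1)` on every arc -/
def AttainsBound {V : Type} (D : Digraph V) : Prop :=
  ∃ (X : Type) (_ : Fintype X) (_ : Nonempty X) (_ : DecidableEq X) (f : V → Finset X),
    IsArcBinding D f ∧
      ∀ u v, D.Adj u v → (f u \ f v).card = min (f u).card ((f v).card - 1)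

/-- the star at `v` in the complete graph with loops on `Option V` -/
def star {V : Type} [Fintype V] [DecidableEq V] (v : V) : Finset (Sym2 (Option V)) :=
  Finset.univ.image (fun w : Option V => s(some v, w))

theorem star_card {V : Type} [Fintype V] [DecidableEq V] (v : V) :
    (star v).card = Fintype.card V + 1 := by
  unfold star
  rw [Finset.card_image_of_injective]
  · rw [Finset.card_univ, Fintype.card_option]
  · intro a b h
    rcases Sym2.eq_iff.1 h with ⟨_, h⟩ | ⟨h1, h2⟩
    · exact h
    · rw [← h1, h2]

theorem mem_star {V : Type} [Fintype V] [DecidableEq V] (v : V) (w : Option V) (u : V) :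
    s(some u, w) ∈ star v ↔ u = v ∨ w = some v := by
  unfold star
  simp only [Finset.mem_image, Finset.mem_univ, true_and]
  constructor
  · rintro ⟨x, hx⟩
    rcases Sym2.eq_iff.1 hx with ⟨h, _⟩ | ⟨h, _⟩
    · exact Or.inl (Option.some_injective _ h).symm
    · exact Or.inr h.symm
  · rintro (rfl | rfl)
    · exact ⟨w, rfl⟩
    · exact ⟨some u, Sym2.eq_swap⟩

theorem star_sdiff {V : Type} [Fintype V] [DecidableEq V] (u v : V) (h : u ≠ v) :
    star u \ star v = (star u).erase s(some u, some v) := by
  ext e
  rw [Finset.mem_sdiff, Finset.mem_erase]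
  constructor
  · rintro ⟨h1, h2⟩
    refine ⟨?_, h1⟩
    rintro rfl
    exact h2 ((mem_star _ _ _).2 (Or.inr rfl))
  · rintro ⟨h1, h2⟩
    refine ⟨h2, ?_⟩
    intro h3
    unfold star at h2
    simp only [Finset.mem_image, Finset.mem_univ, true_and] at h2
    obtain ⟨w, rfl⟩ := h2
    rcases (mem_star _ _ _).1 h3 with h4 | h4
    · exact h h4
    · exact h1 (by rw [h4])

theorem star_sdiff_card {V : Type} [Fintype V] [DecidableEq V] (u v : V) (h : u ≠ v) :
    (star u \ star v).card = Fintype.card V := by
  rw [star_sdiff u v h, Finset.card_erase_of_mem, star_card]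
  · rfl
  · exact (mem_star _ _ _).2 (Or.inl rfl)

theorem loop_mem {V : Type} [Fintype V] [DecidableEq V] (u v : V) :
    s(some u, some u) ∈ star v ↔ u = v := by
  rw [mem_star]
  constructor
  · rintro (h | h)
    · exact h
    · exact Option.some_injective _ h
  · exact Or.inl

/-- Every finite digraph without loops (and without parallel arcs) attains the bound. -/
theorem result (V : Type) [Fintype V] (D : Digraph V) (hD : ∀ v, ¬ D.Adj v v) :
    AttainsBound D := by
  classical
  have hne : ∀ u v, D.Adj u v → u ≠ v := by
    rintro u v h rfl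
    exact hD u h
  refine ⟨Sym2 (Option V), inferInstance, ⟨s(none, none)⟩, inferInstance, star, ⟨⟨?_, ?_⟩, ?_⟩, ?_⟩
  · intro u v h
    have h1 : s(some u, some u) ∈ star v := by
      rw [← h]; exact (loop_mem u u).2 rfl
    exact (loop_mem u v).1 h1
  · intro u v u' v' h h' heq
    have huv := hne u v h
    have huv' := hne u' v' h'
    rw [star_sdiff u v huv, star_sdiff u' v' huv'] at heq
    have h1 : s(some u, some u) ∈ (star u).erase s(some u, some v) := by
      rw [Finset.mem_erase]
      refine ⟨?_, (loop_mem u u).2 rfl⟩
      intro h2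
      rcases Sym2.eq_iff.1 h2 with ⟨_, h3⟩ | ⟨h3, _⟩ <;>
        exact huv (Option.some_injective _ h3)
    rw [heq, Finset.mem_erase] at h1
    have hu : u = u' := (loop_mem u u').1 h1.2
    subst hu
    refine ⟨rfl, ?_⟩
    by_contra hv
    have h4 : s(some u, some v) ∈ (star u).erase s(some u, some v') := by
      rw [Finset.mem_erase]
      refine ⟨?_, (mem_star _ _ _).2 (Or.inl rfl)⟩
      intro h2
      rcases Sym2.eq_iff.1 h2 with ⟨_, h3⟩ | ⟨h3, h5⟩
      · exact hv (Option.some_injective _ h3)
      · exact huv (Option.some_injective _ h5).symm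
    rw [← heq, Finset.mem_erase] at h4
    exact h4.1 rfl
  · intro u v h
    rw [star_sdiff_card u v (hne u v h), star_card]
    exact Nat.lt_succ_self _
  · intro u v h
    rw [star_sdiff_card u v (hne u v h), star_card, star_card]
    simp

end Pool.Agent.Results.MP_95765a_co.AllDigraphs
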